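import Pool.Agent.Helper57.NW.Defs
import Pool.Agent.Helper44.NS.GLow

/-! # NW: the ordinates of zeros at which every prediction fails, from below -/

set_option autoImplicit false
open MeasureTheory Set Filter Topology
open Pool.Agent.Helper57.Zeta Pool.Agent.Helper57.LH Pool.Agent.Helper57.ED
open Pool.Agent.Helper54.LG (za zb qk SS MM)
open Pool.Agent.Helper93.UG (zc sp)
open Pool.Agent.Helper69.UG (XX NX)
open Pool.Agent.Helper57.TX (QX DP rs)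
open Pool.Agent.Helper57.NS (cnt)
open Pool.Agent.Helper57.NW
open Pool.Agent.Helper44.NS (chain vol_shifts thick_zeros)

namespace Pool.Agent.Helper44.NW

/-- stub good_w -/
def GoodW (k d : ℝ) (n : ℕ) : Prop :=
  ∃ c C T₀ : ℝ, 0 < c ∧ 1 ≤ C ∧ ∀ T R L : ℝ, T₀ ≤ T → C ≤ L → L ≤ Real.log T → 1 ≤ R → R ≤ L ^ (1 - d) →
    ∃ E : Set ℝ, volume E ≤ ENNReal.ofReal (C * L ^ (-4 : ℝ) * T) ∧ ∀ t ∈ Icc (T / 2) (3 * T), t ∉ E → ∀ u : ℝ, |u - t| ≤ sp T →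
      |Tw k T R L n u - (Mw k R L n - Dw k T R L n t)| ≤ C * L ^ (-c) ∧
      |Ow k T R L n u - (Mw k R L n - Aw k R L n)| ≤ C * L ^ (-c) ∧
      (zc (Wr T R 1 u) : ℝ) ≤ L

/-- stub point -/
def PointW (k d : ℝ) (n : ℕ) : Prop :=
  ∃ C : ℝ, 1 ≤ C ∧ ∀ (T R L t v : ℝ) (W : Set ℝ), 3 ≤ T → C ≤ L → 1 ≤ R → R ≤ L ^ (1 - d) →
    |Ow k T R L n t - (Mw k R L n - Aw k R L n)| ≤ v → (zc (Wr T R 1 t) : ℝ) ≤ L → W ⊆ Icc (-R) R →
    |(cnt T t W - prd k T R L n t W) - (Tw k T R L n t - Mw k R L n)| ≤ v + C * L ^ (-1 : ℝ)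

/-- stub dp_low -/
def DpLow (k d : ℝ) (n : ℕ) : Prop :=
  ∃ C T₀ : ℝ, 1 ≤ C ∧
    ∀ T R L e : ℝ, T₀ ≤ T → C ≤ L → L ≤ Real.log T → 1 ≤ R → R ≤ L ^ (1 - d) → 0 < e → e ≤ 2 →
    ENNReal.ofReal (1 / C * (L / R) ^ (-((1 + 30 * k) * e ^ 2)) * T) ≤
      volume {t : ℝ | T ≤ t ∧ t ≤ 2 * T ∧ e < |Dw k T R L n t|}

/-- `x ^ (-A y ^ 2)` for `y = e + δ`, `δ` a negative power of `L`, `x ≤ L` -/
theorem pow_low {A e δ K c x L : ℝ} (hA0 : 0 ≤ A) (hA : A ≤ 3) (he : e ≤ 1) (hK : 0 ≤ K) (hc : 0 < c) (hx : 1 ≤ x)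
    (hxL : x ≤ L) (hδ : δ = K * L ^ (-c)) (hδ1 : δ ≤ 1) :
    Real.exp (-(9 * K / c)) * x ^ (-(A * e ^ 2)) ≤ x ^ (-(A * (e + δ) ^ 2)) := by
  have hx0 : 0 < x := by linarith
  have hL0 : 0 < L := by linarith
  have hδ0 : 0 ≤ δ := by rw [hδ]; positivity
  have h1 : A * (e + δ) ^ 2 ≤ A * e ^ 2 + 9 * δ := by
    have : (e + δ) ^ 2 ≤ e ^ 2 + 3 * δ := by nlinarith
    nlinarith
  have h2 : Real.log x ≤ L ^ c / c := (Real.log_le_log hx0 hxL).trans (Real.log_le_rpow_div hL0.le hc)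
  have h3 : 0 ≤ Real.log x := Real.log_nonneg hx
  have h4 : 9 * δ * Real.log x ≤ 9 * K / c := by
    calc 9 * δ * Real.log x ≤ 9 * δ * (L ^ c / c) := by gcongr
      _ = 9 * K / c * (L ^ (-c) * L ^ c) := by rw [hδ]; ring
      _ = 9 * K / c := by rw [← Real.rpow_add hL0]; simp
  rw [Real.rpow_def_of_pos hx0, Real.rpow_def_of_pos hx0, ← Real.exp_add, Real.exp_le_exp]
  nlinarith

/-- the pointwise part -/
theorem thick_pt {k T R L e t a c c1 C1 C2 : ℝ} {n J : ℕ} (hac : 2 * a ≤ c1) (hcc : 2 * c ≤ c1) (hc : 0 ≤ c) (hc1 : c ≤ 1)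
    (hC1 : 1 ≤ C1) (hC2 : 1 ≤ C2) (hL : 1 ≤ L) (hs : 0 < sp T) (hJ : L ^ a + 1 ≤ J) (hJ2 : (J : ℝ) ≤ 3 * L ^ a)
    (h1 : ∀ j : ℤ, |j| ≤ J → ∀ u : ℝ, |u - (t + j * sp T)| ≤ sp T →
      |Tw k T R L n u - (Mw k R L n - Dw k T R L n (t + j * sp T))| ≤ C1 * L ^ (-c1) ∧
      |Ow k T R L n u - (Mw k R L n - Aw k R L n)| ≤ C1 * L ^ (-c1) ∧ (zc (Wr T R 1 u) : ℝ) ≤ L)
    (h2 : ∀ (t v : ℝ) (W : Set ℝ), |Ow k T R L n t - (Mw k R L n - Aw k R L n)| ≤ v → (zc (Wr T R 1 t) : ℝ) ≤ L →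
      W ⊆ Icc (-R) R → |(cnt T t W - prd k T R L n t W) - (Tw k T R L n t - Mw k R L n)| ≤ v + C2 * L ^ (-1 : ℝ))
    (h3 : e + (8 * C1 + C2) * L ^ (-c) < |Dw k T R L n t|) (u : ℝ) (hu : |u - t| ≤ L ^ a * sp T) :
    ∀ W : Set ℝ, W ⊆ Icc (-R) R → e < |cnt T u W - prd k T R L n u W| := by
  intro W hW
  have hL0 : 0 < L := by linarith
  -- the nearest shift
  set x := (u - t) / sp T with hx
  have hx1 : |x| ≤ L ^ a := by
    rw [hx, abs_div, abs_of_pos hs, div_le_iff₀ hs]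
    exact hu
  set j : ℤ := ⌊x⌋ with hj
  have hj1 : (j : ℝ) ≤ x := Int.floor_le x
  have hj2 : x < j + 1 := Int.lt_floor_add_one x
  have hjJ : |j| ≤ J := by
    have h := abs_le.1 hx1
    have e1 : |(j : ℝ)| ≤ J := abs_le.2 ⟨by linarith, by linarith⟩
    exact_mod_cast e1
  have hux : u = t + x * sp T := by rw [hx, div_mul_cancel₀ _ hs.ne']; ring
  have huj : |u - (t + j * sp T)| ≤ sp T := by
    have e1 : u - (t + j * sp T) = (x - j) * sp T := by rw [hux]; ring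
    rw [e1, abs_mul, abs_of_pos hs, abs_of_nonneg (by linarith)]
    nlinarith
  obtain ⟨g1, g2, g3⟩ := h1 j hjJ u huj
  have g4 := h2 u _ W g2 g3 hW
  have g5 := chain (D := Dw k T R L n) (S := fun u => Mw k R L n - Tw k T R L n u) (δ := C1 * L ^ (-c1)) hs
    (fun j hj u hu => by
      have h := (h1 j hj u hu).1
      rw [abs_sub_comm] at h
      rw [show (Mw k R L n - Tw k T R L n u) - Dw k T R L n (t + j * sp T) =
        (Mw k R L n - Dw k T R L n (t + j * sp T)) - Tw k T R L n u by ring]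
      exact h) j hjJ
  have p1 : 2 * (J : ℝ) * (C1 * L ^ (-c1)) ≤ 6 * C1 * L ^ (-c) := by
    have e1 : L ^ a * L ^ (-c1) ≤ L ^ (-c) := by
      rw [← Real.rpow_add hL0]
      exact Real.rpow_le_rpow_of_exponent_le hL (by linarith)
    calc 2 * (J : ℝ) * (C1 * L ^ (-c1)) ≤ 2 * (3 * L ^ a) * (C1 * L ^ (-c1)) := by gcongr
      _ = 6 * C1 * (L ^ a * L ^ (-c1)) := by ring
      _ ≤ 6 * C1 * L ^ (-c) := by gcongr
  have p2 : C1 * L ^ (-c1) ≤ C1 * L ^ (-c) := by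
    have := Real.rpow_le_rpow_of_exponent_le hL (show -c1 ≤ -c by linarith)
    gcongr
  have p3 : C2 * L ^ (-1 : ℝ) ≤ C2 * L ^ (-c) := by
    have := Real.rpow_le_rpow_of_exponent_le hL (show -1 ≤ -c by linarith)
    gcongr
  generalize hQ : L ^ (-c) = Q at *
  generalize hD : Dw k T R L n t = D0 at *
  generalize hD' : Dw k T R L n (t + j * sp T) = D1 at *
  generalize hX : cnt T u W - prd k T R L n u W = X at *
  generalize hY : Tw k T R L n u = Y at *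
  generalize hM : Mw k R L n = M at *
  have q1 : |D0| ≤ |D1| + 6 * C1 * Q := by
    have := abs_sub_abs_le_abs_sub D0 D1
    rw [abs_sub_comm] at g5
    linarith
  have q2 : |D1| ≤ |Y - M| + C1 * Q := by
    have e1 : D1 = (Y - (M - D1)) - (Y - M) := by ring
    have e2 : |D1| ≤ |Y - (M - D1)| + |Y - M| := by
      conv_lhs => rw [e1]
      exact abs_sub _ _
    linarith
  have q3 : |Y - M| ≤ |X| + (C1 * Q + C2 * Q) := by
    have := abs_sub_abs_le_abs_sub (Y - M) X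
    rw [abs_sub_comm] at g4
    linarith
  linarith

/-- the number of shifts -/
theorem shifts {a L : ℝ} (ha : 0 ≤ a) (hL1 : 1 ≤ L) : ∃ J : ℕ, L ^ a + 1 ≤ J ∧ (J : ℝ) ≤ 3 * L ^ a := by
  refine ⟨⌈L ^ a⌉₊ + 1, ?_, ?_⟩
  · push_cast
    linarith [Nat.le_ceil (L ^ a)]
  · have h1 : 1 ≤ L ^ a := Real.one_le_rpow hL1 ha
    have h2 := Nat.ceil_lt_add_one (show 0 ≤ L ^ a by positivity)
    push_cast
    linarith

/-- the good part of the large values -/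
theorem good_part {E0 N : Set ℝ} {κ P T m : ℝ} (hκ : 0 ≤ κ * P * T) (h : 2 * (κ * P * T) ≤ m) (hE : ENNReal.ofReal m ≤ volume E0)
    (hN : volume N ≤ ENNReal.ofReal (κ * P * T)) : ENNReal.ofReal (κ * P * T) ≤ volume (E0 \ N) := by
  have h1 : volume E0 ≤ volume (E0 \ N) + volume N := by
    refine (measure_mono (fun t ht => ?_)).trans (measure_union_le (E0 \ N) N)
    by_cases h : t ∈ N
    · exact Or.inr h
    · exact Or.inl ⟨ht, h⟩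
  have h2 : ENNReal.ofReal (κ * P * T) + ENNReal.ofReal (κ * P * T) ≤ volume (E0 \ N) + ENNReal.ofReal (κ * P * T) := by
    rw [← ENNReal.ofReal_add hκ hκ, ← two_mul]
    exact (ENNReal.ofReal_le_ofReal h).trans (hE.trans (h1.trans (add_le_add le_rfl hN)))
  exact (ENNReal.add_le_add_iff_right ENNReal.ofReal_ne_top).1 h2

/-- the measure of the exceptional set -/
theorem exc_le {J : ℕ} {S κ P L T : ℝ} (hS : 0 ≤ S) (hκ0 : 0 < κ) (hL1 : 1 ≤ L) (hT : 0 ≤ T) (hJ : 2 * (J : ℝ) + 1 ≤ 7 * L ^ (1 / 2 : ℝ))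
    (hLS : (7 * S / κ) ^ 2 ≤ L) (hPL : L ^ (-(23 / 8) : ℝ) ≤ P) : (2 * (J : ℝ) + 1) * (S * L ^ (-4 : ℝ) * T) ≤ κ * P * T := by
  have hL0 : 0 < L := by linarith
  have e2 : 7 * S ≤ κ * L ^ (1 / 2 : ℝ) := by
    have h1 := Real.rpow_le_rpow (by positivity) hLS (show (0:ℝ) ≤ 1 / 2 by norm_num)
    rw [← Real.rpow_natCast, ← Real.rpow_mul (by positivity)] at h1
    norm_num at h1
    rw [div_le_iff₀ hκ0] at h1
    norm_num
    linarith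
  have e3 : L ^ (1 / 2 : ℝ) * L ^ (1 / 2 : ℝ) * L ^ (-4 : ℝ) ≤ L ^ (-(23 / 8) : ℝ) := by
    rw [← Real.rpow_add hL0, ← Real.rpow_add hL0]
    exact Real.rpow_le_rpow_of_exponent_le hL1 (by norm_num)
  calc (2 * (J : ℝ) + 1) * (S * L ^ (-4 : ℝ) * T) ≤ 7 * L ^ (1 / 2 : ℝ) * (S * L ^ (-4 : ℝ) * T) := by gcongr
    _ = 7 * S * (L ^ (1 / 2 : ℝ) * L ^ (-4 : ℝ) * T) := by ring
    _ ≤ κ * L ^ (1 / 2 : ℝ) * (L ^ (1 / 2 : ℝ) * L ^ (-4 : ℝ) * T) := by gcongr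
    _ = κ * (L ^ (1 / 2 : ℝ) * L ^ (1 / 2 : ℝ) * L ^ (-4 : ℝ)) * T := by ring
    _ ≤ κ * L ^ (-(23 / 8) : ℝ) * T := by gcongr
    _ ≤ κ * P * T := by gcongr

theorem v_ge {κ P L : ℝ} (hκ0 : 0 < κ) (hL1 : 1 ≤ L) (hLκ : (1 / κ) ^ 8 ≤ L) (hPL : L ^ (-(23 / 8) : ℝ) ≤ P) :
    L ^ (-3 : ℝ) ≤ κ * P := by
  have hL0 : 0 < L := by linarith
  have h1 : 1 ≤ κ * L ^ (1 / 8 : ℝ) := by
    have h1 := Real.rpow_le_rpow (by positivity) hLκ (show (0:ℝ) ≤ 1 / 8 by norm_num)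
    rw [← Real.rpow_natCast, ← Real.rpow_mul (by positivity)] at h1
    norm_num at h1
    have h2 : κ * κ⁻¹ ≤ κ * L ^ (1 / 8 : ℝ) := by
      norm_num
      exact mul_le_mul_of_nonneg_left h1 hκ0.le
    rwa [mul_inv_cancel₀ hκ0.ne'] at h2
  calc L ^ (-3 : ℝ) = 1 * L ^ (-3 : ℝ) := (one_mul _).symm
    _ ≤ κ * L ^ (1 / 8 : ℝ) * L ^ (-3 : ℝ) := by gcongr
    _ = κ * L ^ (-(23 / 8) : ℝ) := by
        rw [mul_assoc, ← Real.rpow_add hL0]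
        norm_num
    _ ≤ κ * P := by gcongr

/-- the power -/
theorem P_ge {k e x L : ℝ} (hk : 0 < k) (hk8 : k ≤ 1 / 32) (he : 0 < e) (he1 : e ≤ 1) (hx : 1 ≤ x) (hxL : x ≤ L) :
    L ^ (-(23 / 8) : ℝ) ≤ x ^ (-((1 + 30 * k) * e ^ 2)) := by
  have h1 : e ^ 2 ≤ 1 := pow_le_one₀ he.le he1
  have h2 : (1 + 30 * k) * e ^ 2 ≤ 23 / 8 * 1 := by
    have : 1 + 30 * k ≤ 23 / 8 := by linarith
    gcongr
  have h3 : x ^ (-(23 / 8) : ℝ) ≤ x ^ (-((1 + 30 * k) * e ^ 2)) := Real.rpow_le_rpow_of_exponent_le hx (by linarith)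
  exact (Real.rpow_le_rpow_of_nonpos (by linarith) hxL (by norm_num)).trans h3

/-- **K**: the ordinates at which every prediction fails, from below -/
theorem final_glow_of {k d : ℝ} (hk : 0 < k) (hk8 : k ≤ 1 / 32) (hd : 0 < d) {n : ℕ}
    (H1 : GoodW k d n) (H5 : PointW k d n) (H6 : DpLow k d n) :
    ∃ C T₀ : ℝ, 1 ≤ C ∧ ∀ T R L e : ℝ, T₀ ≤ T → C ≤ L → L ≤ Real.log T → 1 ≤ R → R ≤ L ^ (1 - d) → 0 < e → e ≤ 1 →
    1 / C * (L / R) ^ (-((1 + 30 * k) * e ^ 2)) * (T * Real.log T) ≤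
      (zc {g : ℝ | T ≤ g ∧ g ≤ 2 * T ∧ ∀ W : Set ℝ, W ⊆ Icc (-R) R → e < |cnt T g W - prd k T R L n g W|} : ℝ) := by
  obtain ⟨c1, C1, T1, hc1, hC1, H1⟩ := H1
  obtain ⟨C5, hC5, H5⟩ := H5
  obtain ⟨C6, T6, hC6, H6⟩ := H6
  obtain ⟨c, hc, hcc1, hcc5⟩ : ∃ c : ℝ, 0 < c ∧ 2 * c ≤ c1 ∧ c ≤ 1 := by
    refine ⟨min (c1 / 2) 1, by positivity, ?_, ?_⟩
    · linarith [min_le_left (c1 / 2) 1]
    · exact min_le_right _ _
  obtain ⟨a, ha, ha2, hac⟩ : ∃ a : ℝ, 0 < a ∧ a ≤ 1 / 2 ∧ 2 * a ≤ c1 :=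
    ⟨min (1 / 2) (c1 / 2), by positivity, min_le_left _ _, by linarith [min_le_right (1 / 2) (c1 / 2)]⟩
  obtain ⟨Cz, Tz, hCz, hZ⟩ := thick_zeros ha (by linarith : a < 1) (show (0:ℝ) ≤ 3 by norm_num)
  set K := 8 * C1 + C5 with hK
  have hK1 : 1 ≤ K := by linarith
  set κ := Real.exp (-(9 * K / c)) / (2 * C6) with hκ
  have hκ0 : 0 < κ := by positivity
  have e1 : 0 < K ^ (1 / c) := by positivity
  have e2 : 0 < (7 * C1 / κ) ^ 2 := by positivity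
  have e3 : 0 < (1 / κ) ^ 8 := by positivity
  have e4 : 0 < 20 / κ := by positivity
  set CC := (C1 + C5 + C6 + Cz) + (K ^ (1 / c) + ((7 * C1 / κ) ^ 2 + ((1 / κ) ^ 8 + 20 / κ))) with hCC
  refine ⟨CC, max T1 (max (max T6 Tz) 40), by linarith, ?_⟩
  intro T R L e hT hCL hLT hR hRL he he1
  simp only [max_le_iff] at hT
  obtain ⟨hT1, ⟨hT6, hTz⟩, hT40⟩ := hT
  obtain ⟨hL1', hL5', hL6', hLz, hLK, hLS, hLκ, hLC⟩ :
      C1 ≤ L ∧ C5 ≤ L ∧ C6 ≤ L ∧ Cz ≤ L ∧ K ^ (1 / c) ≤ L ∧ (7 * C1 / κ) ^ 2 ≤ L ∧ (1 / κ) ^ 8 ≤ L ∧ 20 / κ ≤ L := by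
    refine ⟨?_, ?_, ?_, ?_, ?_, ?_, ?_, ?_⟩ <;> linarith
  have hL1 : 1 ≤ L := hC1.trans hL1'
  have hL0 : 0 < L := by linarith
  have hT0 : 0 < T := by linarith
  have hlT : 1 ≤ Real.log T := hL1.trans hLT
  have hs : 0 < sp T := by
    unfold sp
    have := Real.pi_pos
    positivity
  have hR0 : 0 < R := by linarith
  -- the ratio
  have hRL' : R ≤ L := by
    refine hRL.trans ?_
    calc L ^ (1 - d) ≤ L ^ (1:ℝ) := Real.rpow_le_rpow_of_exponent_le hL1 (by linarith)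
      _ = L := Real.rpow_one L
  have hx1 : 1 ≤ L / R := by rwa [one_le_div hR0]
  have hxL : L / R ≤ L := div_le_self hL0.le hR
  have hx0 : 0 < L / R := by positivity
  -- the number of shifts
  obtain ⟨J, hJ1, hJ2⟩ := shifts ha.le hL1
  have hLa : L ^ a ≤ L ^ (1 / 2 : ℝ) := Real.rpow_le_rpow_of_exponent_le hL1 ha2
  have hLh1 : 1 ≤ L ^ (1 / 2 : ℝ) := Real.one_le_rpow hL1 (by norm_num)
  have hJ3 : (J : ℝ) ≤ 3 * L ^ (1 / 2 : ℝ) := by linarith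
  have hJs : (J : ℝ) * sp T ≤ 20 := by
    have h1 : L ^ (1 / 2 : ℝ) ≤ L := by
      calc L ^ (1 / 2 : ℝ) ≤ L ^ (1:ℝ) := Real.rpow_le_rpow_of_exponent_le hL1 (by norm_num)
        _ = L := Real.rpow_one L
    have h2 : (J : ℝ) ≤ 3 * Real.log T := by linarith
    have h3 : (J : ℝ) * sp T ≤ 3 * Real.log T * sp T := by gcongr
    have h4 : 3 * Real.log T * sp T = 3 * (2 * Real.pi) := by
      unfold sp
      field_simp
    have := Real.pi_lt_d2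
    linarith
  -- the sets
  obtain ⟨Es, hEv, G1⟩ := H1 T R L hT1 hL1' hLT hR hRL
  set N : Set ℝ := ⋃ j ∈ Finset.Icc (-(J : ℤ)) J, (fun t : ℝ => t + (j : ℝ) * sp T) ⁻¹' Es with hN
  have hNv := vol_shifts (s := sp T) J Es hEv
  set δ := K * L ^ (-c) with hδ
  have hδ1 : δ ≤ 1 := by
    have h1 : K ≤ L ^ c := by
      have := Real.rpow_le_rpow (by positivity) hLK hc.le
      rwa [← Real.rpow_mul (by linarith), one_div, inv_mul_cancel₀ hc.ne', Real.rpow_one] at this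
    calc δ ≤ L ^ c * L ^ (-c) := by rw [hδ]; gcongr
      _ = 1 := by rw [← Real.rpow_add hL0]; simp
  have hδ0 : 0 < δ := by positivity
  set E0 : Set ℝ := {t : ℝ | T ≤ t ∧ t ≤ 2 * T ∧ e + δ < |Dw k T R L n t|} with hE0
  have hE0v := H6 T R L (e + δ) hT6 hL6' hLT hR hRL (by positivity) (by linarith)
  rw [← hE0] at hE0v
  set P := (L / R) ^ (-((1 + 30 * k) * e ^ 2)) with hP
  have hP0 : 0 < P := by positivity
  have hPL : L ^ (-(23 / 8) : ℝ) ≤ P := P_ge hk hk8 he he1 hx1 hxL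
  have hpl := pow_low (A := 1 + 30 * k) (e := e) (δ := δ) (K := K) (c := c) (L := L) (x := L / R) (by positivity) (by linarith) he1
    (by linarith) hc hx1 hxL hδ hδ1
  rw [← hP] at hpl
  have h2v : 2 * (κ * P * T) ≤ 1 / C6 * (L / R) ^ (-((1 + 30 * k) * (e + δ) ^ 2)) * T := by
    have e1 : 2 * (κ * P * T) = 1 / C6 * (Real.exp (-(9 * K / c)) * P) * T := by
      rw [hκ]
      field_simp
    rw [e1]
    gcongr
  have hNv2 : volume N ≤ ENNReal.ofReal (κ * P * T) :=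
    hNv.trans (ENNReal.ofReal_le_ofReal (exc_le (by linarith) hκ0 hL1 hT0.le (by linarith) hLS hPL))
  have hvol : ENNReal.ofReal (κ * P * T) ≤ volume (E0 \ N) := good_part (by positivity) h2v hE0v hNv2
  have hv3 : L ^ (-3 : ℝ) ≤ κ * P := v_ge hκ0 hL1 hLκ hPL
  have hfin := hZ T L hTz hLz hLT (E0 \ N)
    {g | ∀ W : Set ℝ, W ⊆ Icc (-R) R → e < |cnt T g W - prd k T R L n g W|} (fun t ht => ⟨ht.1.1, ht.1.2.1⟩) ?_ (κ * P) hv3 hvol
  · refine le_trans ?_ hfin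
    have h1 : 1 / CC ≤ κ / 20 := by
      calc _ ≤ 1 / (20 / κ) := one_div_le_one_div_of_le e4 (by linarith)
        _ = κ / 20 := by rw [one_div_div]
    calc _ ≤ κ / 20 * P * (T * Real.log T) := by gcongr
      _ = κ * P / 20 * (T * Real.log T) := by ring
  · intro t ht u hu _ _
    refine thick_pt hac hcc1 hc.le hcc5 hC1 hC5 hL1 hs hJ1 hJ2 (fun j hj u' hu' => ?_)
      (fun t v W h1 h2 h3 => H5 T R L t v W (by linarith) hL5' hR hRL h1 h2 h3) ht.1.2.2 u hu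
    refine G1 (t + j * sp T) ?_ ?_ u' hu'
    · have h1 : |(j : ℝ)| ≤ J := by exact_mod_cast hj
      have h2 : |(j : ℝ) * sp T| ≤ 20 := by
        rw [abs_mul, abs_of_pos hs]
        exact (mul_le_mul_of_nonneg_right h1 hs.le).trans hJs
      have h3 := abs_le.1 h2
      exact ⟨by linarith [ht.1.1, h3.1], by linarith [ht.1.2.1, h3.2]⟩
    · intro h1
      refine ht.2 ?_
      rw [hN]
      simp only [mem_iUnion, mem_preimage]
      exact ⟨j, Finset.mem_Icc.2 (abs_le.1 hj), h1⟩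

end Pool.Agent.Helper44.NW
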